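import Mathlib

set_option autoImplicit false

namespace Pool.Agent.N107.Kim

/-- lattice points in a box meeting the tetrahedron -/
theorem box (k pA qA pB qB pC qC : ℤ)
    (hA : pA ≤ qA) (hB : pB ≤ qB) (hC : pC ≤ qC)
    (h0A : 0 ≤ pA) (h0B : 0 ≤ pB) (h0C : 0 ≤ pC)
    (hkA : qA ≤ k) (hkB : qB ≤ k) (hkC : qC ≤ k)
    (eA : (qA - pA) % 2 = 0) (eB : (qB - pB) % 2 = 0) (eC : (qC - pC) % 2 = 0)
    (e : (pA + pB + pC) % 2 = 0)
    (t1 : pA ≤ qB + qC) (t2 : pB ≤ qA + qC) (t3 : pC ≤ qA + qB)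
    (t4 : pA + pB + pC ≤ 2 * k) :
    ∃ A B C : ℤ, (pA ≤ A ∧ A ≤ qA ∧ pB ≤ B ∧ B ≤ qB ∧ pC ≤ C ∧ C ≤ qC) ∧
      ((A - pA) % 2 = 0 ∧ (B - pB) % 2 = 0 ∧ (C - pC) % 2 = 0) ∧
      A ≤ B + C ∧ B ≤ A + C ∧ C ≤ A + B ∧ A + B + C ≤ 2 * k := by
  obtain ⟨c, hc1, hc2, hc3, hc4, hc5, hc6⟩ : ∃ c : ℤ, pC ≤ c ∧ pA - qB ≤ c ∧ pB - qA ≤ c ∧
      c ≤ qC ∧ (c - pC) % 2 = 0 ∧ (c = pC ∨ c = pA - qB ∨ c = pB - qA) := by
    rcases le_total pC (pA - qB) with h1 | h1
    · rcases le_total (pA - qB) (pB - qA) with h2 | h2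
      · exact ⟨pB - qA, by omega, by omega, by omega, by omega, by omega, by omega⟩
      · exact ⟨pA - qB, by omega, by omega, by omega, by omega, by omega, by omega⟩
    · rcases le_total pC (pB - qA) with h2 | h2
      · exact ⟨pB - qA, by omega, by omega, by omega, by omega, by omega, by omega⟩
      · exact ⟨pC, by omega, by omega, by omega, by omega, by omega, by omega⟩
  rcases eq_or_ne c 0 with h0 | h0
  · rcases le_total pA pB with h1 | h1
    · exact ⟨pB, pB, c, ⟨by omega, by omega, by omega, by omega, by omega, by omega⟩,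
        ⟨by omega, by omega, by omega⟩, by omega, by omega, by omega, by omega⟩
    · exact ⟨pA, pA, c, ⟨by omega, by omega, by omega, by omega, by omega, by omega⟩,
        ⟨by omega, by omega, by omega⟩, by omega, by omega, by omega, by omega⟩
  have hc0 : 1 ≤ c := by omega
  -- choose the sum
  obtain ⟨s, hs1, hs2, hs3, hs4, hs5, hs6, hs7, hs8, hs9⟩ : ∃ s : ℤ, pA + pB ≤ s ∧
      2 * pA - c ≤ s ∧ 2 * pB - c ≤ s ∧ c ≤ s ∧ s ≤ 2 * k - c ∧ s ≤ qA + qB ∧
      s ≤ 2 * qA + c ∧ s ≤ 2 * qB + c ∧ (s - c) % 2 = 0 := by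
    by_cases h1 : 2 * pA - c ≤ pA + pB
    · by_cases h2 : 2 * pB - c ≤ pA + pB
      · by_cases h3 : c ≤ pA + pB
        · exact ⟨pA + pB, by omega, by omega, by omega, by omega, by omega, by omega, by omega,
            by omega, by omega⟩
        · exact ⟨c, by omega, by omega, by omega, by omega, by omega, by omega, by omega,
            by omega, by omega⟩
      · by_cases h3 : c ≤ 2 * pB - c
        · exact ⟨2 * pB - c, by omega, by omega, by omega, by omega, by omega, by omega, by omega,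
            by omega, by omega⟩
        · exact ⟨c, by omega, by omega, by omega, by omega, by omega, by omega, by omega,
            by omega, by omega⟩
    · by_cases h3 : c ≤ 2 * pA - c
      · exact ⟨2 * pA - c, by omega, by omega, by omega, by omega, by omega, by omega, by omega,
          by omega, by omega⟩
      · exact ⟨c, by omega, by omega, by omega, by omega, by omega, by omega, by omega,
          by omega, by omega⟩
  obtain ⟨u, hu⟩ : ∃ u : ℤ, s - c = 2 * u := ⟨(s - c) / 2, by omega⟩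
  -- now A in [u, u + c], parity pA
  obtain ⟨v, hv1, hv2, hv3⟩ : ∃ v : ℤ, u ≤ v ∧ v ≤ u + 1 ∧ (v - pA) % 2 = 0 := by
    by_cases h : (u - pA) % 2 = 0
    · exact ⟨u, by omega, by omega, h⟩
    · exact ⟨u + 1, by omega, by omega, by omega⟩
  obtain ⟨A, hA1, hA2, hA3, hA4, hA5⟩ : ∃ A : ℤ, pA ≤ A ∧ s - qB ≤ A ∧ v ≤ A ∧
      (A - pA) % 2 = 0 ∧ (A = pA ∨ A = s - qB ∨ A = v) := by
    by_cases h1 : pA ≤ s - qB
    · by_cases h2 : s - qB ≤ v
      · exact ⟨v, by omega, by omega, by omega, by omega, by omega⟩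
      · exact ⟨s - qB, by omega, by omega, by omega, by omega, by omega⟩
    · by_cases h2 : pA ≤ v
      · exact ⟨v, by omega, by omega, by omega, by omega, by omega⟩
      · exact ⟨pA, by omega, by omega, by omega, by omega, by omega⟩
  exact ⟨A, s - A, c, ⟨by omega, by omega, by omega, by omega, by omega, by omega⟩,
    ⟨by omega, by omega, by omega⟩, by omega, by omega, by omega, by omega⟩

end Pool.Agent.N107.Kim
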