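import Pool.Agent.N107.Kim.Step

set_option autoImplicit false
set_option maxHeartbeats 4000000
set_option linter.unusedVariables false

namespace Pool.Agent.N107.Kim

theorem exists_min (a b : ℤ) : ∃ m : ℤ, m ≤ a ∧ m ≤ b ∧ (m = a ∨ m = b) := by
  rcases le_total a b with h | h
  · exact ⟨a, le_refl _, h, Or.inl rfl⟩
  · exact ⟨b, h, le_refl _, Or.inr rfl⟩

theorem exists_max (a b : ℤ) : ∃ m : ℤ, a ≤ m ∧ b ≤ m ∧ (m = a ∨ m = b) := by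
  rcases le_total a b with h | h
  · exact ⟨b, h, le_refl _, Or.inr rfl⟩
  · exact ⟨a, le_refl _, h, Or.inl rfl⟩

theorem exists_max3 (a b c : ℤ) :
    ∃ m : ℤ, a ≤ m ∧ b ≤ m ∧ c ≤ m ∧ (m = a ∨ m = b ∨ m = c) := by
  obtain ⟨m, h1, h2, h3⟩ := exists_max a b
  obtain ⟨n, g1, g2, g3⟩ := exists_max m c
  refine ⟨n, h1.trans g1, h2.trans g1, g2, ?_⟩
  rcases g3 with rfl | rfl
  · rcases h3 with rfl | rfl
    · exact Or.inl rfl
    · exact Or.inr (Or.inl rfl)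
  · exact Or.inr (Or.inr rfl)

theorem transport2 (r1 r2 c1 c2 c3 : ℤ) (h1 : 0 ≤ r1) (h2 : 0 ≤ r2) (h3 : 0 ≤ c1)
    (h4 : 0 ≤ c2) (h5 : 0 ≤ c3) (h : r1 + r2 = c1 + c2 + c3) :
    ∃ a1 a2 a3 : ℤ, (0 ≤ a1 ∧ a1 ≤ c1) ∧ (0 ≤ a2 ∧ a2 ≤ c2) ∧ (0 ≤ a3 ∧ a3 ≤ c3) ∧
      a1 + a2 + a3 = r1 := by
  obtain ⟨a, ha1, ha2, ha3⟩ := exists_min r1 c1
  obtain ⟨b, hb1, hb2, hb3⟩ := exists_min (r1 - a) c2
  refine ⟨a, b, r1 - a - b, ⟨?_, ha2⟩, ⟨?_, hb2⟩, ⟨by linarith, ?_⟩, by ring⟩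
  · rcases ha3 with rfl | rfl <;> linarith
  · rcases hb3 with rfl | rfl <;> linarith
  · rcases ha3 with rfl | rfl <;> rcases hb3 with rfl | rfl <;> linarith

theorem transport (r1 r2 r3 c1 c2 c3 : ℤ) (h1 : 0 ≤ r1) (h2 : 0 ≤ r2) (h2' : 0 ≤ r3)
    (h3 : 0 ≤ c1) (h4 : 0 ≤ c2) (h5 : 0 ≤ c3) (h : r1 + r2 + r3 = c1 + c2 + c3) :
    ∃ a11 a12 a13 a21 a22 a23 a31 a32 a33 : ℤ,
      (0 ≤ a11 ∧ 0 ≤ a12 ∧ 0 ≤ a13 ∧ 0 ≤ a21 ∧ 0 ≤ a22 ∧ 0 ≤ a23 ∧ 0 ≤ a31 ∧ 0 ≤ a32 ∧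
        0 ≤ a33) ∧ (a11 + a12 + a13 = r1 ∧ a21 + a22 + a23 = r2 ∧ a31 + a32 + a33 = r3) ∧
      (a11 + a21 + a31 = c1 ∧ a12 + a22 + a32 = c2 ∧ a13 + a23 + a33 = c3) := by
  obtain ⟨a1, a2, a3, ⟨u1, u2⟩, ⟨u3, u4⟩, ⟨u5, u6⟩, u7⟩ :=
    transport2 r1 (r2 + r3) c1 c2 c3 h1 (by linarith) h3 h4 h5 (by linarith)
  obtain ⟨b1, b2, b3, ⟨v1, v2⟩, ⟨v3, v4⟩, ⟨v5, v6⟩, v7⟩ :=
    transport2 r2 r3 (c1 - a1) (c2 - a2) (c3 - a3) h2 h2' (by linarith) (by linarith)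
      (by linarith) (by linarith)
  exact ⟨a1, a2, a3, b1, b2, b3, c1 - a1 - b1, c2 - a2 - b2, c3 - a3 - b3,
    ⟨by linarith, by linarith, by linarith, by linarith, by linarith, by linarith, by linarith,
      by linarith, by linarith⟩, ⟨by linarith, by linarith, by linarith⟩,
      ⟨by linarith, by linarith, by linarith⟩⟩

theorem birkhoff (h H11 H12 H13 H21 H22 H23 H31 H32 H33 : ℤ)
    (p11 : 0 ≤ H11) (p12 : 0 ≤ H12) (p13 : 0 ≤ H13) (p21 : 0 ≤ H21) (p22 : 0 ≤ H22)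
    (p23 : 0 ≤ H23) (p31 : 0 ≤ H31) (p32 : 0 ≤ H32) (p33 : 0 ≤ H33)
    (r1 : H11 + H12 + H13 = h) (r2 : H21 + H22 + H23 = h) (r3 : H31 + H32 + H33 = h)
    (c1 : H11 + H21 + H31 = h) (c2 : H12 + H22 + H32 = h) (c3 : H13 + H23 + H33 = h) :
    ∃ h12 h13 h21 h23 h31 h32 : ℤ,
      (0 ≤ h12 ∧ 0 ≤ h13 ∧ 0 ≤ h21 ∧ 0 ≤ h23 ∧ 0 ≤ h31 ∧ 0 ≤ h32) ∧
      (H11 = h12 + h13 ∧ H12 = h21 + h23 ∧ H13 = h31 + h32) ∧
      (H21 = h21 + h31 ∧ H22 = h12 + h32 ∧ H23 = h13 + h23) ∧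
      (H31 = h23 + h32 ∧ H32 = h13 + h31 ∧ H33 = h12 + h21) := by
  obtain ⟨t, t1, t2, t3, t4⟩ := exists_max3 0 (H33 - H12) (H22 - H13)
  have w1 : t ≤ H11 := by rcases t4 with rfl | rfl | rfl <;> linarith
  have w2 : t ≤ H22 := by rcases t4 with rfl | rfl | rfl <;> linarith
  have w3 : t ≤ H33 := by rcases t4 with rfl | rfl | rfl <;> linarith
  exact ⟨t, H11 - t, H33 - t, H12 - H33 + t, H13 - H22 + t, H22 - t,
    ⟨by linarith, by linarith, by linarith, by linarith, by linarith, by linarith⟩,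
    ⟨by linarith, by linarith, by linarith⟩, ⟨by linarith, by linarith, by linarith⟩,
    ⟨by linarith, by linarith, by linarith⟩⟩

theorem rowle {N r S d1 d2 d3 l1 l2 l3 : ℤ} (h : r ≤ N) (h1 : r ≤ d1) (h2 : r ≤ d2)
    (h3 : r ≤ d3) (hs : d1 + d2 + d3 = r + S) (u1 : N ≤ S - d1) (u2 : N ≤ S - d2)
    (u3 : N ≤ S - d3) (hN : 2 * N ≤ S) (hl1 : l1 = 0 ∨ l1 = N - d1)
    (hl2 : l2 = 0 ∨ l2 = N - d2) (hl3 : l3 = 0 ∨ l3 = N - d3) : l1 + l2 + l3 ≤ N - r := by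
  rcases hl1 with rfl | rfl <;> rcases hl2 with rfl | rfl <;> rcases hl3 with rfl | rfl <;>
    linarith

theorem k33 (k x11 x12 x13 x21 x22 x23 x31 x32 x33 : ℤ)
    (p11 : 0 ≤ x11) (p12 : 0 ≤ x12) (p13 : 0 ≤ x13) (p21 : 0 ≤ x21) (p22 : 0 ≤ x22)
    (p23 : 0 ≤ x23) (p31 : 0 ≤ x31) (p32 : 0 ≤ x32) (p33 : 0 ≤ x33)
    (r1 : x11 + x12 + x13 ≤ k) (r2 : x21 + x22 + x23 ≤ k) (r3 : x31 + x32 + x33 ≤ k)
    (T1 : Tet k (x12 + x13) (x22 + x23) (x32 + x33))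
    (T2 : Tet k (x11 + x13) (x21 + x23) (x31 + x33))
    (T3 : Tet k (x11 + x12) (x21 + x22) (x31 + x32)) :
    ∃ y q11 q12 q13 q21 q22 q23 q31 q32 q33 h12 h13 h21 h23 h31 h32 : ℤ,
      0 ≤ y ∧ (0 ≤ q11 ∧ 0 ≤ q12 ∧ 0 ≤ q13 ∧ 0 ≤ q21 ∧ 0 ≤ q22 ∧ 0 ≤ q23 ∧ 0 ≤ q31 ∧ 0 ≤ q32 ∧
        0 ≤ q33) ∧ (0 ≤ h12 ∧ 0 ≤ h13 ∧ 0 ≤ h21 ∧ 0 ≤ h23 ∧ 0 ≤ h31 ∧ 0 ≤ h32) ∧
      (x11 = q21 + q31 + h12 + h13 ∧ x12 = q22 + q32 + h21 + h23 ∧
        x13 = q23 + q33 + h31 + h32) ∧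
      (x21 = q11 + q31 + h21 + h31 ∧ x22 = q12 + q32 + h12 + h32 ∧
        x23 = q13 + q33 + h13 + h23) ∧
      (x31 = q11 + q21 + h23 + h32 ∧ x32 = q12 + q22 + h13 + h31 ∧
        x33 = q13 + q23 + h12 + h21) ∧
      y + (q11 + q12 + q13 + q21 + q22 + q23 + q31 + q32 + q33) +
        (h12 + h13 + h21 + h23 + h31 + h32) = k := by
  obtain ⟨a1, a2, a3, a4, a5⟩ := T1
  obtain ⟨b1, b2, b3, b4, b5⟩ := T2
  obtain ⟨c1, c2, c3, c4, c5⟩ := T3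
  obtain ⟨t1, ht1⟩ : ∃ t, x12 + x13 + (x22 + x23) + (x32 + x33) = 2 * t :=
    ⟨_, (Int.mul_ediv_cancel' (Int.dvd_of_emod_eq_zero a5)).symm⟩
  obtain ⟨t2, ht2⟩ : ∃ t, x11 + x13 + (x21 + x23) + (x31 + x33) = 2 * t :=
    ⟨_, (Int.mul_ediv_cancel' (Int.dvd_of_emod_eq_zero b5)).symm⟩
  obtain ⟨t3, ht3⟩ : ∃ t, x11 + x12 + (x21 + x22) + (x31 + x32) = 2 * t :=
    ⟨_, (Int.mul_ediv_cancel' (Int.dvd_of_emod_eq_zero c5)).symm⟩
  clear a5 b5 c5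
  obtain ⟨N1, n11, n12, n13, n14⟩ := exists_max3 (x11 + x12 + x13) (x21 + x22 + x23)
    (x31 + x32 + x33)
  obtain ⟨N2, n21, n22, n23, n24⟩ := exists_max3 t1 t2 t3
  obtain ⟨N, nn1, nn2, nn3⟩ := exists_max N1 N2
  have hN : N = x11 + x12 + x13 ∨ N = x21 + x22 + x23 ∨ N = x31 + x32 + x33 ∨ N = t1 ∨
      N = t2 ∨ N = t3 := by
    rcases nn3 with rfl | rfl
    · rcases n14 with rfl | rfl | rfl <;> simp
    · rcases n24 with rfl | rfl | rfl <;> simp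
  have m1 : x11 + x12 + x13 ≤ N := n11.trans nn1
  have m2 : x21 + x22 + x23 ≤ N := n12.trans nn1
  have m3 : x31 + x32 + x33 ≤ N := n13.trans nn1
  have m4 : t1 ≤ N := n21.trans nn2
  have m5 : t2 ≤ N := n22.trans nn2
  have m6 : t3 ≤ N := n23.trans nn2
  clear n11 n12 n13 n14 n21 n22 n23 n24 nn1 nn2 nn3
  obtain ⟨S, hS⟩ : ∃ S, S = x11 + x12 + x13 + x21 + x22 + x23 + x31 + x32 + x33 := ⟨_, rfl⟩
  have hNk : N ≤ k := by rcases hN with rfl | rfl | rfl | rfl | rfl | rfl <;> linarith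
  have hNS : 2 * N ≤ S := by rcases hN with rfl | rfl | rfl | rfl | rfl | rfl <;> linarith
  have d11 : N ≤ S - (x11 + t1) := by
    rcases hN with rfl | rfl | rfl | rfl | rfl | rfl <;> linarith
  have d12 : N ≤ S - (x12 + t2) := by
    rcases hN with rfl | rfl | rfl | rfl | rfl | rfl <;> linarith
  have d13 : N ≤ S - (x13 + t3) := by
    rcases hN with rfl | rfl | rfl | rfl | rfl | rfl <;> linarith
  have d21 : N ≤ S - (x21 + t1) := by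
    rcases hN with rfl | rfl | rfl | rfl | rfl | rfl <;> linarith
  have d22 : N ≤ S - (x22 + t2) := by
    rcases hN with rfl | rfl | rfl | rfl | rfl | rfl <;> linarith
  have d23 : N ≤ S - (x23 + t3) := by
    rcases hN with rfl | rfl | rfl | rfl | rfl | rfl <;> linarith
  have d31 : N ≤ S - (x31 + t1) := by
    rcases hN with rfl | rfl | rfl | rfl | rfl | rfl <;> linarith
  have d32 : N ≤ S - (x32 + t2) := by
    rcases hN with rfl | rfl | rfl | rfl | rfl | rfl <;> linarith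
  have d33 : N ≤ S - (x33 + t3) := by
    rcases hN with rfl | rfl | rfl | rfl | rfl | rfl <;> linarith
  clear hN
  obtain ⟨l11, e11, f11, g11⟩ := exists_max 0 (N - (x11 + t1))
  obtain ⟨l12, e12, f12, g12⟩ := exists_max 0 (N - (x12 + t2))
  obtain ⟨l13, e13, f13, g13⟩ := exists_max 0 (N - (x13 + t3))
  obtain ⟨l21, e21, f21, g21⟩ := exists_max 0 (N - (x21 + t1))
  obtain ⟨l22, e22, f22, g22⟩ := exists_max 0 (N - (x22 + t2))
  obtain ⟨l23, e23, f23, g23⟩ := exists_max 0 (N - (x23 + t3))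
  obtain ⟨l31, e31, f31, g31⟩ := exists_max 0 (N - (x31 + t1))
  obtain ⟨l32, e32, f32, g32⟩ := exists_max 0 (N - (x32 + t2))
  obtain ⟨l33, e33, f33, g33⟩ := exists_max 0 (N - (x33 + t3))
  have R1 := rowle m1 (by linarith) (by linarith) (by linarith) (by linarith) d11 d12 d13 hNS
    g11 g12 g13
  have R2 := rowle m2 (by linarith) (by linarith) (by linarith) (by linarith) d21 d22 d23 hNS
    g21 g22 g23
  have R3 := rowle m3 (by linarith) (by linarith) (by linarith) (by linarith) d31 d32 d33 hNS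
    g31 g32 g33
  have C1 := rowle m4 (by linarith) (by linarith) (by linarith) (by linarith) d11 d21 d31 hNS
    g11 g21 g31
  have C2 := rowle m5 (by linarith) (by linarith) (by linarith) (by linarith) d12 d22 d32 hNS
    g12 g22 g32
  have C3 := rowle m6 (by linarith) (by linarith) (by linarith) (by linarith) d13 d23 d33 hNS
    g13 g23 g33
  obtain ⟨q11, q12, q13, q21, q22, q23, q31, q32, q33, ⟨s1, s2, s3, s4, s5, s6, s7, s8, s9⟩,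
      ⟨ρ1, ρ2, ρ3⟩, ⟨κ1, κ2, κ3⟩⟩ :=
    transport (N - (x11 + x12 + x13) - (l11 + l12 + l13))
      (N - (x21 + x22 + x23) - (l21 + l22 + l23)) (N - (x31 + x32 + x33) - (l31 + l32 + l33))
      (N - t1 - (l11 + l21 + l31)) (N - t2 - (l12 + l22 + l32)) (N - t3 - (l13 + l23 + l33))
      (by linarith) (by linarith) (by linarith) (by linarith) (by linarith) (by linarith)
      (by linarith)
  obtain ⟨h12, h13, h21, h23, h31, h32, ⟨v1, v2, v3, v4, v5, v6⟩, ⟨w11, w12, w13⟩,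
      ⟨w21, w22, w23⟩, ⟨w31, w32, w33⟩⟩ :=
    birkhoff (S - 2 * N) (x11 + t1 - N + (l11 + q11)) (x12 + t2 - N + (l12 + q12))
      (x13 + t3 - N + (l13 + q13)) (x21 + t1 - N + (l21 + q21)) (x22 + t2 - N + (l22 + q22))
      (x23 + t3 - N + (l23 + q23)) (x31 + t1 - N + (l31 + q31)) (x32 + t2 - N + (l32 + q32))
      (x33 + t3 - N + (l33 + q33)) (by linarith) (by linarith) (by linarith) (by linarith)
      (by linarith) (by linarith) (by linarith) (by linarith) (by linarith) (by linarith)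
      (by linarith) (by linarith) (by linarith) (by linarith) (by linarith)
  refine ⟨k - N, l11 + q11, l12 + q12, l13 + q13, l21 + q21, l22 + q22, l23 + q23, l31 + q31,
    l32 + q32, l33 + q33, h12, h13, h21, h23, h31, h32, by linarith,
    ⟨by linarith, by linarith, by linarith, by linarith, by linarith, by linarith, by linarith,
      by linarith, by linarith⟩, ⟨v1, v2, v3, v4, v5, v6⟩, ⟨by linarith, by linarith, by linarith⟩,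
    ⟨by linarith, by linarith, by linarith⟩, ⟨by linarith, by linarith, by linarith⟩,
    by linarith⟩

end Pool.Agent.N107.Kim
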