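import Mathlib

set_option autoImplicit false

namespace Pool.Agent.N107.Kim

open Finset

/-- number of indices with value `h` -/
def cnt {m : ℕ} {G : Type} [DecidableEq G] (f : Fin m → G) (h : G) : ℕ :=
  (univ.filter (fun j => f j = h)).card

theorem cnt_comp {m : ℕ} {G : Type} [DecidableEq G] (f : Fin m → G) (s : Equiv.Perm (Fin m))
    (h : G) : cnt (fun j => f (s j)) h = cnt f h := by
  unfold cnt
  apply Finset.card_bij (fun j _ => s j)
  · intro a ha; simpa using ha
  · intro a _ b _ hab; exact s.injective hab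
  · intro b hb
    exact ⟨s.symm b, by simpa using hb, by simp⟩

theorem exists_perm {m : ℕ} {G : Type} [DecidableEq G] (f g : Fin m → G)
    (h : ∀ x, cnt f x = cnt g x) : ∃ s : Equiv.Perm (Fin m), ∀ j, f (s j) = g j := by
  have e : ∀ c : G, {a // g a = c} ≃ {b // f b = c} := fun c =>
    Fintype.equivOfCardEq (by
      rw [Fintype.card_subtype, Fintype.card_subtype]
      exact (h c).symm)
  exact ⟨Equiv.ofFiberEquiv e, fun j => Equiv.ofFiberEquiv_map e j⟩

theorem glue {V : Type} [Fintype V] (T : SimpleGraph V) (hT : T.IsTree) {m : ℕ}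
    {G : Type} [DecidableEq G] (μ : V → V → Fin m → G)
    (h : ∀ v w, T.Adj v w → ∀ x, cnt (μ v w) x = cnt (μ w v) x) :
    ∃ σ : V → Equiv.Perm (Fin m), ∀ v w, T.Adj v w → ∀ j, μ v w (σ v j) = μ w v (σ w j) := by
  classical
  obtain ⟨r⟩ := hT.connected.nonempty
  have hpath : ∀ v, ∃ p : T.Walk r v, p.IsPath := fun v => by
    obtain ⟨p, hp, -⟩ := hT.connected.exists_path_of_dist r v
    exact ⟨p, hp⟩
  choose P hP using hpath
  have hpar : ∀ v w, T.Adj v w → T.dist r v = T.dist r w + 1 → w = (P v).penultimate := by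
    intro v w hvw hd
    obtain ⟨q, hq, hlen⟩ := hT.connected.exists_path_of_dist r w
    have hv : v ∉ q.support := by
      intro hv
      have h1 := SimpleGraph.dist_le (q.takeUntil v hv)
      have h2 := q.length_takeUntil_le_length hv
      omega
    have hw := hT.isAcyclic.mem_support_of_ne_mem_support_of_adj_of_isPath (hP v) hq hvw hv
    exact hT.isAcyclic.eq_penultimate_of_adj_end (hP v) hvw hw
  have hone : ∀ v w (τ : Equiv.Perm (Fin m)), T.Adj v w →
      ∃ ρ : Equiv.Perm (Fin m), ∀ j, μ v w (ρ j) = μ w v (τ j) := by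
    intro v w τ hvw
    refine exists_perm (μ v w) (fun j => μ w v (τ j)) (fun x => ?_)
    rw [cnt_comp]
    exact h v w hvw x
  have key : ∀ n : ℕ, ∃ σ : V → Equiv.Perm (Fin m), ∀ v w, T.Adj v w →
      T.dist r v = T.dist r w + 1 → T.dist r v ≤ n →
        ∀ j, μ v w (σ v j) = μ w v (σ w j) := by
    intro n
    induction n with
    | zero => exact ⟨fun _ => 1, fun v w _ h1 h2 => by omega⟩
    | succ n ih =>
      obtain ⟨σ, hσ⟩ := ih
      refine ⟨fun v => if hv : T.dist r v = n + 1 ∧ T.Adj v (P v).penultimate then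
        (hone v (P v).penultimate (σ (P v).penultimate) hv.2).choose else σ v, ?_⟩
      intro v w hvw hd hn j
      have hw : ¬ (T.dist r w = n + 1 ∧ T.Adj w (P w).penultimate) := by
        rintro ⟨h1, -⟩; omega
      by_cases hv : T.dist r v = n + 1
      · have hwv := hpar v w hvw hd
        have hv' : T.dist r v = n + 1 ∧ T.Adj v (P v).penultimate := ⟨hv, hwv ▸ hvw⟩
        have := (hone v (P v).penultimate (σ (P v).penultimate) hv'.2).choose_spec j
        simp only [dif_pos hv', dif_neg hw]
        subst hwv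
        exact this
      · have hv' : ¬ (T.dist r v = n + 1 ∧ T.Adj v (P v).penultimate) := fun h => hv h.1
        simp only [dif_neg hv', dif_neg hw]
        exact hσ v w hvw hd (by omega) j
  obtain ⟨n, hn⟩ : ∃ n, ∀ v, T.dist r v ≤ n :=
    ⟨univ.sup (T.dist r), fun v => Finset.le_sup (mem_univ v)⟩
  obtain ⟨σ, hσ⟩ := key n
  refine ⟨σ, fun v w hvw j => ?_⟩
  rcases hT.dist_eq_dist_add_one_of_adj r hvw with hd | hd
  · exact hσ v w hvw hd (hn v) j
  · exact (hσ w v hvw.symm hd (hn w) j).symm

end Pool.Agent.N107.Kim
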