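import Pool.Agent.N107.Kim.Base
import Pool.Agent.N107.Kim.Glue

set_option autoImplicit false
set_option maxHeartbeats 4000000

namespace Pool.Agent.N107.Kim

open Finset

/-- the group -/
abbrev G := ZMod 2 × ZMod 2

theorem G_cases (g : G) : g = (0, 0) ∨ g = (0, 1) ∨ g = (1, 0) ∨ g = (1, 1) := by
  revert g; decide

theorem sumG {M : Type*} [AddCommMonoid M] (f : G → M) :
    ∑ h, f h = f (0, 0) + f (0, 1) + f (1, 0) + f (1, 1) := by
  have : (univ : Finset G) = {(0, 0), (0, 1), (1, 0), (1, 1)} := by decide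
  rw [this, Finset.sum_insert (by decide), Finset.sum_insert (by decide),
    Finset.sum_insert (by decide), Finset.sum_singleton]
  simp only [add_assoc]

/-- first character count -/
def chA (w : G → ℕ) : ℤ := (w (1, 0) : ℤ) + w (1, 1)
/-- second character count -/
def chB (w : G → ℕ) : ℤ := (w (0, 1) : ℤ) + w (1, 1)
/-- third character count -/
def chC (w : G → ℕ) : ℤ := (w (1, 0) : ℤ) + w (0, 1)

theorem tet_of (k : ℕ) (w : G → ℕ) (h : ∑ x, w x = k) : Tet k (chA w) (chB w) (chC w) := by
  rw [sumG] at h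
  unfold Tet chA chB chC
  refine ⟨by omega, by omega, by omega, by omega, by omega⟩

theorem of_tet (k : ℕ) {a b c : ℤ} (h : Tet k a b c) :
    ∃ w : G → ℕ, ∑ x, w x = k ∧ chA w = a ∧ chB w = b ∧ chC w = c := by
  obtain ⟨h1, h2, h3, h4, h5⟩ := h
  obtain ⟨x, hx⟩ : ∃ x : ℕ, (x : ℤ) * 2 = b + c - a := ⟨((b + c - a) / 2).toNat, by omega⟩
  obtain ⟨y, hy⟩ : ∃ y : ℕ, (y : ℤ) * 2 = a + c - b := ⟨((a + c - b) / 2).toNat, by omega⟩
  obtain ⟨z, hz⟩ : ∃ z : ℕ, (z : ℤ) * 2 = a + b - c := ⟨((a + b - c) / 2).toNat, by omega⟩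
  refine ⟨fun g => if g = (0, 1) then x else if g = (1, 0) then y else if g = (1, 1) then z else
    k - (x + y + z), ?_, ?_, ?_, ?_⟩
  · rw [sumG]
    simp
    omega
  · simp [chA]
    omega
  · simp [chB]
    omega
  · simp [chC]
    omega

/-- distances to the even and odd vertices of the cube -/
def eo (k : ℤ) : List ℤ → ℤ × ℤ
  | [] => (0, k)
  | M :: l => (min (M + (eo k l).1) (k - M + (eo k l).2),
      min (M + (eo k l).2) (k - M + (eo k l).1))

theorem inv_eo {V : Type} (k : ℕ) (rows : V → G → ℕ) (hr : ∀ v, ∑ x, rows v x = k)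
    (l : List V) :
    Inv k (eo k (l.map fun v => chA (rows v))).1 (eo k (l.map fun v => chA (rows v))).2
      (eo k (l.map fun v => chB (rows v))).1 (eo k (l.map fun v => chB (rows v))).2
      (eo k (l.map fun v => chC (rows v))).1 (eo k (l.map fun v => chC (rows v))).2 := by
  induction l with
  | nil => exact Inv.nil k (by positivity)
  | cons v l ih => exact Inv.cons ih (tet_of k (rows v) (hr v))

theorem split {k : ℕ} (f : Fin k → G) (t : G → G → ℕ) (h : ∀ g, ∑ x, t g x = cnt f g) :
    ∃ f' : Fin k → G, ∀ g x, (univ.filter (fun j => f j = g ∧ f' j = x)).card = t g x := by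
  have e : ∀ g, {j // f j = g} ≃ Σ x, Fin (t g x) := fun g =>
    Fintype.equivOfCardEq (by
      rw [Fintype.card_subtype, Fintype.card_sigma]
      simp only [Fintype.card_fin]
      exact (h g).symm)
  refine ⟨fun j => (e (f j) ⟨j, rfl⟩).1, fun g x => ?_⟩
  have hf : ∀ i : {j // f j = g}, (e (f i.1) ⟨i.1, rfl⟩).1 = (e g i).1 := by
    rintro ⟨j, rfl⟩; rfl
  have : t g x = (univ : Finset (Fin (t g x))).card := by simp
  rw [this]
  symm
  apply Finset.card_bij (fun (i : Fin (t g x)) _ => ((e g).symm ⟨x, i⟩).1)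
  · intro i _
    rw [mem_filter]
    refine ⟨mem_univ _, ((e g).symm ⟨x, i⟩).2, ?_⟩
    refine (hf ((e g).symm ⟨x, i⟩)).trans ?_
    rw [Equiv.apply_symm_apply]
  · intro a _ b _ hab
    have h1 := (e g).symm.injective (Subtype.ext hab)
    simpa using h1
  · intro j hj
    rw [mem_filter] at hj
    obtain ⟨-, hj1, hj2⟩ := hj
    have h2 : x = ((e g) ⟨j, hj1⟩).1 := hj2.symm.trans (hf ⟨j, hj1⟩)
    subst h2
    exact ⟨(e g ⟨j, hj1⟩).2, mem_univ _, by
      have h3 : (⟨((e g) ⟨j, hj1⟩).1, (e g ⟨j, hj1⟩).2⟩ : Σ x, Fin (t g x)) = e g ⟨j, hj1⟩ := rfl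
      rw [h3, Equiv.symm_apply_apply]⟩

theorem table (k : ℕ) (u v w : G → ℕ) (hu : ∑ x, u x = k) (hv : ∑ x, v x = k)
    (hw : ∑ x, w x = k) (TA : Tet k (chA u) (chA v) (chA w))
    (TB : Tet k (chB u) (chB v) (chB w)) (TC : Tet k (chC u) (chC v) (chC w)) :
    ∃ t : G → G → ℕ, (∀ g, ∑ x, t g x = u g) ∧ (∀ x, ∑ g, t g x = v x) ∧
      ∀ s, ∑ g, t g (s - g) = w s := by
  rw [sumG] at hu hv hw
  unfold chA at TA
  unfold chB at TB
  unfold chC at TC
  obtain ⟨y, q11, q12, q13, q21, q22, q23, q31, q32, q33, h12, h13, h21, h23, h31, h32, y0,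
    ⟨s1, s2, s3, s4, s5, s6, s7, s8, s9⟩, ⟨v1, v2, v3, v4, v5, v6⟩, ⟨w11, w12, w13⟩,
      ⟨w21, w22, w23⟩, ⟨w31, w32, w33⟩, tot⟩ :=
    k33 k (u (0, 1)) (u (1, 0)) (u (1, 1)) (v (0, 1)) (v (1, 0)) (v (1, 1))
      (w (0, 1)) (w (1, 0)) (w (1, 1)) (by positivity) (by positivity) (by positivity)
      (by positivity) (by positivity) (by positivity) (by positivity) (by positivity)
      (by positivity) (by omega) (by omega) (by omega) TA TB
      (by unfold Tet at TC ⊢; omega)
  lift y to ℕ using y0
  lift q11 to ℕ using s1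
  lift q12 to ℕ using s2
  lift q13 to ℕ using s3
  lift q21 to ℕ using s4
  lift q22 to ℕ using s5
  lift q23 to ℕ using s6
  lift q31 to ℕ using s7
  lift q32 to ℕ using s8
  lift q33 to ℕ using s9
  lift h12 to ℕ using v1
  lift h13 to ℕ using v2
  lift h21 to ℕ using v3
  lift h23 to ℕ using v4
  lift h31 to ℕ using v5
  lift h32 to ℕ using v6
  let row (a b c d : ℕ) : G → ℕ := fun x => if x = (0, 0) then a else if x = (0, 1) then b else
    if x = (1, 0) then c else d
  have r0 : ∀ a b c d, row a b c d (0, 0) = a := fun a b c d => by simp [row]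
  have r1 : ∀ a b c d, row a b c d (0, 1) = b := fun a b c d => by simp [row]
  have r2 : ∀ a b c d, row a b c d (1, 0) = c := fun a b c d => by simp [row]
  have r3 : ∀ a b c d, row a b c d (1, 1) = d := fun a b c d => by simp [row]
  let t : G → G → ℕ := fun g => if g = (0, 0) then row y q11 q12 q13 else
    if g = (0, 1) then row q21 q31 h12 h13 else if g = (1, 0) then row q22 h21 q32 h23 else
      row q23 h31 h32 q33
  have t0 : t (0, 0) = row y q11 q12 q13 := by simp [t]
  have t1 : t (0, 1) = row q21 q31 h12 h13 := by simp [t]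
  have t2 : t (1, 0) = row q22 h21 q32 h23 := by simp [t]
  have t3 : t (1, 1) = row q23 h31 h32 q33 := by simp [t]
  refine ⟨t, ?_, ?_, ?_⟩
  · intro g
    rw [sumG]
    rcases G_cases g with rfl | rfl | rfl | rfl
    · rw [t0, r0, r1, r2, r3]; omega
    · rw [t1, r0, r1, r2, r3]; omega
    · rw [t2, r0, r1, r2, r3]; omega
    · rw [t3, r0, r1, r2, r3]; omega
  · intro x
    rw [sumG, t0, t1, t2, t3]
    rcases G_cases x with rfl | rfl | rfl | rfl
    · simp only [r0]; omega
    · simp only [r1]; omega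
    · simp only [r2]; omega
    · simp only [r3]; omega
  · intro s
    rw [sumG, t0, t1, t2, t3]
    have e0 : ((0, 1) : G) - (0, 1) = (0, 0) := by decide
    have e1 : ((0, 1) : G) - (1, 0) = (1, 1) := by decide
    have e2 : ((0, 1) : G) - (1, 1) = (1, 0) := by decide
    have e3 : ((1, 0) : G) - (0, 1) = (1, 1) := by decide
    have e4 : ((1, 0) : G) - (1, 0) = (0, 0) := by decide
    have e5 : ((1, 0) : G) - (1, 1) = (0, 1) := by decide
    have e6 : ((1, 1) : G) - (0, 1) = (1, 0) := by decide
    have e7 : ((1, 1) : G) - (1, 0) = (0, 1) := by decide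
    have e8 : ((1, 1) : G) - (1, 1) = (0, 0) := by decide
    have e9 : ((0, 0) : G) - (0, 1) = (0, 1) := by decide
    have e10 : ((0, 0) : G) - (1, 0) = (1, 0) := by decide
    have e11 : ((0, 0) : G) - (1, 1) = (1, 1) := by decide
    have e12 : ∀ g : G, g - (0, 0) = g := by decide
    rcases G_cases s with rfl | rfl | rfl | rfl
    · rw [e12, e9, e10, e11, r0, r1, r2, r3]; omega
    · rw [e12, e0, e1, e2, r0, r1, r2, r3]; omega
    · rw [e12, e3, e4, e5, r0, r1, r2, r3]; omega
    · rw [e12, e6, e7, e8, r0, r1, r2, r3]; omega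

theorem attain {V : Type} [DecidableEq V] (k : ℕ) (rows : V → G → ℕ)
    (hr : ∀ v, ∑ x, rows v x = k) (l : List V) (hl : l.Nodup) :
    ∀ w : G → ℕ, ∑ x, w x = k →
      Cd k (eo k (l.map fun v => chA (rows v))).1 (eo k (l.map fun v => chA (rows v))).2
        (chA w) →
      Cd k (eo k (l.map fun v => chB (rows v))).1 (eo k (l.map fun v => chB (rows v))).2
        (chB w) →
      Cd k (eo k (l.map fun v => chC (rows v))).1 (eo k (l.map fun v => chC (rows v))).2
        (chC w) →
      ∃ F : V → Fin k → G, (∀ v ∈ l, ∀ x, cnt (F v) x = rows v x) ∧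
        ∀ x, cnt (fun j => (l.map (fun v => F v j)).sum) x = w x := by
  induction l with
  | nil =>
    intro w hw hA hB hC
    refine ⟨fun _ _ => 0, by simp, fun x => ?_⟩
    simp only [List.map_nil, eo, Cd, chA, chB, chC] at hA hB hC
    rw [sumG] at hw
    simp only [List.map_nil, List.sum_nil]
    have hc : ∀ x : G, cnt (fun _ : Fin k => (0 : G)) x = if x = (0, 0) then k else 0 := by
      intro x
      unfold cnt
      by_cases hx : x = (0, 0)
      · subst hx
        have h1 : (univ.filter (fun j : Fin k => (fun _ : Fin k => (0 : G)) j = (0, 0))) = univ :=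
          Finset.filter_true_of_mem (fun _ _ => rfl)
        rw [if_pos rfl, h1]
        simp
      · have h1 : (univ.filter (fun j : Fin k => (fun _ : Fin k => (0 : G)) j = x)) = ∅ :=
          Finset.filter_false_of_mem (fun _ _ h => hx h.symm)
        rw [if_neg hx, h1]
        simp
    rw [hc]
    rcases G_cases x with rfl | rfl | rfl | rfl
    · simp; omega
    · simp; omega
    · simp; omega
    · simp; omega
  | cons v l ih =>
    intro w hw hA hB hC
    obtain ⟨a, b, c, hT, ha, hb, hc, ta, tb, tc⟩ :=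
      step (inv_eo k rows hr l) (tet_of k (rows v) (hr v)) (tet_of k w hw) hA hB hC
    obtain ⟨w', hw', rfl, rfl, rfl⟩ := of_tet k hT
    obtain ⟨F', hF1, hF2⟩ := ih (List.nodup_cons.mp hl).2 w' hw' ha hb hc
    obtain ⟨t, ht1, ht2, ht3⟩ := table k w' (rows v) w hw' (hr v) hw ta tb tc
    obtain ⟨f, hf⟩ := split (fun j => (l.map (fun v => F' v j)).sum) t
      (fun g => by rw [ht1, hF2])
    have hvl : v ∉ l := (List.nodup_cons.mp hl).1
    have hup : ∀ u ∈ l, Function.update F' v f u = F' u := fun u hu =>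
      Function.update_of_ne (fun h => hvl (by rw [← h]; exact hu)) _ _
    refine ⟨Function.update F' v f, ?_, ?_⟩
    · intro u hu x
      rcases List.mem_cons.mp hu with rfl | hu
      · rw [Function.update_self, ← ht2 x]
        unfold cnt
        rw [Finset.card_eq_sum_card_fiberwise
          (f := fun j => (l.map (fun v => F' v j)).sum) (t := univ) (fun _ _ => mem_univ _)]
        refine Finset.sum_congr rfl (fun g _ => ?_)
        rw [← hf g x, Finset.filter_filter]
        congr 1
        ext j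
        simp only [mem_filter, mem_univ, true_and]
        exact and_comm
      · rw [hup u hu]
        exact hF1 u hu x
    · intro x
      have hmap : ∀ j, ((v :: l).map (fun u => Function.update F' v f u j)).sum =
          f j + (l.map (fun u => F' u j)).sum := by
        intro j
        rw [List.map_cons, List.sum_cons, Function.update_self]
        congr 2
        exact List.map_congr_left (fun u hu => by rw [hup u hu])
      simp only [hmap]
      rw [← ht3 x]
      unfold cnt
      rw [Finset.card_eq_sum_card_fiberwise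
          (f := fun j => (l.map (fun v => F' v j)).sum) (t := univ) (fun _ _ => mem_univ _)]
      refine Finset.sum_congr rfl (fun g _ => ?_)
      rw [← hf g (x - g), Finset.filter_filter]
      congr 1
      ext j
      simp only [mem_filter, mem_univ, true_and]
      constructor
      · rintro ⟨h1, h2⟩
        exact ⟨h2, by rw [← h1, h2]; abel⟩
      · rintro ⟨h1, h2⟩
        exact ⟨by rw [h1, h2]; abel, h1⟩

end Pool.Agent.N107.Kim
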