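import Pool.Agent.N107.Kim.Claw

set_option autoImplicit false
set_option maxHeartbeats 4000000

namespace Pool.Agent.N107.Kim

open Finset

theorem eo_add {V : Type} (k k' : ℤ) (a b : V → ℤ) (L : List V) :
    (eo k (L.map a)).1 + (eo k' (L.map b)).1 ≤ (eo (k + k') (L.map fun v => a v + b v)).1 ∧
    (eo k (L.map a)).2 + (eo k' (L.map b)).2 ≤ (eo (k + k') (L.map fun v => a v + b v)).2 := by
  induction L with
  | nil => simp [eo]
  | cons v L ih =>
    obtain ⟨h1, h2⟩ := ih
    simp only [List.map_cons, eo]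
    constructor <;> omega

theorem eo_smul {V : Type} (n k : ℤ) (hn : 0 ≤ n) (a : V → ℤ) (L : List V) :
    (eo (n * k) (L.map fun v => n * a v)).1 = n * (eo k (L.map a)).1 ∧
    (eo (n * k) (L.map fun v => n * a v)).2 = n * (eo k (L.map a)).2 := by
  induction L with
  | nil => simp [eo]
  | cons v L ih =>
    obtain ⟨h1, h2⟩ := ih
    simp only [List.map_cons, eo]
    rw [h1, h2, mul_min_of_nonneg _ _ hn, mul_min_of_nonneg _ _ hn]
    constructor <;> ring_nf

theorem eo_parity {V : Type} (k : ℤ) (a : V → ℤ) (L : List V) :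
    ((eo k (L.map a)).1 - (L.map a).sum) % 2 = 0 ∧
    ((eo k (L.map a)).2 - (eo k (L.map a)).1 - k) % 2 = 0 := by
  induction L with
  | nil => simp [eo]
  | cons v L ih =>
    obtain ⟨h1, h2⟩ := ih
    simp only [List.map_cons, eo, List.sum_cons]
    constructor <;> omega

theorem eo_nonneg {V : Type} (k : ℤ) (hk : 0 ≤ k) (a : V → ℤ) (ha : ∀ v, 0 ≤ a v ∧ a v ≤ k)
    (L : List V) : 0 ≤ (eo k (L.map a)).1 ∧ 0 ≤ (eo k (L.map a)).2 := by
  induction L with
  | nil => simpa [eo] using hk
  | cons v L ih =>
    obtain ⟨h1, h2⟩ := ih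
    obtain ⟨h3, h4⟩ := ha v
    simp only [List.map_cons, eo]
    constructor <;> omega

/-- sum over the adjacent vertices of two entries -/
def val {V : Type} (a b : G) (p : (V × V × G → ℤ) × ℤ) (v w : V) : ℤ :=
  p.1 (v, w, a) + p.1 (v, w, b)

theorem eq_zero_of_cnt {k : ℕ} (f : Fin k → G) (h : ∀ x, x ≠ 0 → cnt f x = 0) (j : Fin k) :
    f j = 0 := by
  by_contra hj
  have h1 := h (f j) hj
  unfold cnt at h1
  rw [Finset.card_eq_zero] at h1
  have h2 : j ∈ univ.filter (fun i => f i = f j) := by simp
  rw [h1] at h2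
  simp at h2

theorem exists_fun (k : ℕ) (u : G → ℕ) (hu : ∑ x, u x = k) :
    ∃ f : Fin k → G, ∀ x, cnt f x = u x := by
  obtain ⟨f, hf⟩ := split (fun _ : Fin k => (0 : G)) (fun g x => if g = 0 then u x else 0)
    (by
      intro g
      by_cases hg : g = 0
      · subst hg
        simp [cnt, hu]
      · simp only [if_neg hg, Finset.sum_const_zero]
        unfold cnt
        symm
        rw [Finset.card_eq_zero]
        exact Finset.filter_false_of_mem (fun _ _ h => hg h.symm))
  refine ⟨f, fun x => ?_⟩
  have := hf 0 x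
  simpa [cnt] using this

theorem gen_parity {V : Type} [Fintype V] [DecidableEq V] (T : SimpleGraph V)
    [DecidableRel T.Adj] (g : V → V → G) (v : V)
    (h1 : (∑ w : V, (if T.Adj v w then g v w else (0 : G))) = 0) {a b : G}
    (hab : a = (1, 0) ∧ b = (1, 1) ∨ a = (0, 1) ∧ b = (1, 1) ∨ a = (1, 0) ∧ b = (0, 1)) :
    (∑ w, val a b (Prod.mk (fun x : V × V × G =>
                      if T.Adj x.1 x.2.1 ∧ g x.1 x.2.1 = x.2.2
                      then (1 : ℤ) else 0) (1 : ℤ)) v w) % 2 = 0 := by
  have hchi : ∃ χ : G →+ ZMod 2, ∀ y : G,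
      ((if y = a then 1 else 0) + (if y = b then 1 else 0) : ZMod 2) = χ y := by
    rcases hab with ⟨rfl, rfl⟩ | ⟨rfl, rfl⟩ | ⟨rfl, rfl⟩
    · exact ⟨AddMonoidHom.fst _ _, by decide⟩
    · exact ⟨AddMonoidHom.snd _ _, by decide⟩
    · exact ⟨AddMonoidHom.fst _ _ + AddMonoidHom.snd _ _, by decide⟩
  obtain ⟨χ, hχ⟩ := hchi
  have h2 : ∀ w, ((val a b (Prod.mk (fun x : V × V × G =>
                      if T.Adj x.1 x.2.1 ∧ g x.1 x.2.1 = x.2.2
                      then (1 : ℤ) else 0) (1 : ℤ)) v w : ℤ) : ZMod 2) =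
      χ (if T.Adj v w then g v w else (0 : G)) := by
    intro w
    by_cases hvw : T.Adj v w
    · simp only [val, hvw, true_and, if_true]
      rw [← hχ]
      push_cast
      rfl
    · simp [val, hvw]
  have h3 : ((∑ w, val a b (Prod.mk (fun x : V × V × G =>
                      if T.Adj x.1 x.2.1 ∧ g x.1 x.2.1 = x.2.2
                      then (1 : ℤ) else 0) (1 : ℤ)) v w : ℤ) : ZMod 2) = 0 := by
    rw [Int.cast_sum, Finset.sum_congr rfl (fun w _ => h2 w), ← map_sum, h1, map_zero]
  rw [ZMod.intCast_zmod_eq_zero_iff_dvd] at h3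
  push_cast at h3
  omega

theorem main (V : Type) [Fintype V] [DecidableEq V] (T : SimpleGraph V) [DecidableRel T.Adj]
    (hT : T.IsTree) (S : Set ((V × V × G → ℤ) × ℤ))
    (hS : S = {p : (V × V × G → ℤ) × ℤ |
            ∃ g : V → V → G,
              (∀ v w : V, g v w = g w v) ∧
              (∀ v : V, (¬ ∃! w : V, T.Adj v w) →
                (∑ w : V, (if T.Adj v w then g v w else (0 : G))) = 0) ∧
              p = Prod.mk (fun x : V × V × G =>
                      if T.Adj x.1 x.2.1 ∧ g x.1 x.2.1 = x.2.2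
                      then (1 : ℤ) else 0) (1 : ℤ)})
    (z : (V × V × G → ℤ) × ℤ) (hz : z ∈ AddSubgroup.closure S) (n : ℕ) (hn : 0 < n)
    (hnz : n • z ∈ AddSubmonoid.closure S) : z ∈ AddSubmonoid.closure S := by
  -- group invariants
  have inv1 : (∀ v w h, z.1 (v, w, h) = z.1 (w, v, h)) ∧
      (∀ v w h, ¬ T.Adj v w → z.1 (v, w, h) = 0) ∧
      (∀ v w, T.Adj v w → ∑ h, z.1 (v, w, h) = z.2) ∧
      (∀ v, (¬ ∃! w : V, T.Adj v w) → ∀ a b : G, (a = (1, 0) ∧ b = (1, 1) ∨
        a = (0, 1) ∧ b = (1, 1) ∨ a = (1, 0) ∧ b = (0, 1)) →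
        (∑ w, val a b z v w) % 2 = 0) := by
    clear hnz
    induction hz using AddSubgroup.closure_induction with
    | mem p hp =>
      rw [hS] at hp
      obtain ⟨g, g1, g2, rfl⟩ := hp
      refine ⟨?_, ?_, ?_, ?_⟩
      · intro v w h
        simp only [g1 v w, T.adj_comm v w]
      · intro v w h hvw
        simp [hvw]
      · intro v w hvw
        simp [hvw]
      · intro v hv a b hab
        exact gen_parity T g v (g2 v hv) hab
    | zero => simp [val]
    | add p q _ _ hp hq =>
      obtain ⟨p1, p2, p3, p4⟩ := hp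
      obtain ⟨q1, q2, q3, q4⟩ := hq
      refine ⟨?_, ?_, ?_, ?_⟩
      · intro v w h
        simp only [Prod.fst_add, Pi.add_apply]
        rw [p1, q1]
      · intro v w h hvw
        simp only [Prod.fst_add, Pi.add_apply]
        rw [p2 v w h hvw, q2 v w h hvw, add_zero]
      · intro v w hvw
        simp only [Prod.fst_add, Prod.snd_add, Pi.add_apply]
        rw [Finset.sum_add_distrib, p3 v w hvw, q3 v w hvw]
      · intro v hv a b hab
        have h1 := p4 v hv a b hab
        have h2 := q4 v hv a b hab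
        have h3 : ∑ w, val a b (p + q) v w = ∑ w, val a b p v w + ∑ w, val a b q v w := by
          rw [← Finset.sum_add_distrib]
          refine Finset.sum_congr rfl (fun w _ => ?_)
          simp only [val, Prod.fst_add, Pi.add_apply]
          ring
        rw [h3]
        omega
    | neg p _ hp =>
      obtain ⟨p1, p2, p3, p4⟩ := hp
      refine ⟨?_, ?_, ?_, ?_⟩
      · intro v w h
        simp only [Prod.fst_neg, Pi.neg_apply]
        rw [p1]
      · intro v w h hvw
        simp only [Prod.fst_neg, Pi.neg_apply]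
        rw [p2 v w h hvw, neg_zero]
      · intro v w hvw
        simp only [Prod.fst_neg, Prod.snd_neg, Pi.neg_apply]
        rw [Finset.sum_neg_distrib, p3 v w hvw]
      · intro v hv a b hab
        have h1 := p4 v hv a b hab
        have h3 : ∑ w, val a b (-p) v w = - ∑ w, val a b p v w := by
          rw [← Finset.sum_neg_distrib]
          refine Finset.sum_congr rfl (fun w _ => ?_)
          simp only [val, Prod.fst_neg, Pi.neg_apply]
          ring
        rw [h3]
        omega
  obtain ⟨z1, z2, z3, z4⟩ := inv1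
  -- monoid invariants
  have inv2 : ∀ p ∈ AddSubmonoid.closure S, 0 ≤ p.2 ∧ (∀ x, 0 ≤ p.1 x) ∧
      (∀ v, (¬ ∃! w : V, T.Adj v w) → ∀ a b : G, (a = (1, 0) ∧ b = (1, 1) ∨
        a = (0, 1) ∧ b = (1, 1) ∨ a = (1, 0) ∧ b = (0, 1)) →
        p.2 ≤ (eo p.2 ((univ : Finset V).toList.map (val a b p v))).2) := by
    intro p hp
    induction hp using AddSubmonoid.closure_induction with
    | mem p hp =>
      rw [hS] at hp
      obtain ⟨g, g1, g2, rfl⟩ := hp
      refine ⟨by norm_num, ?_, ?_⟩
      · intro x
        dsimp only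
        split_ifs <;> norm_num
      · intro v hv a b hab
        have h1 := gen_parity T g v (g2 v hv) hab
        have hne : a ≠ b := by
          rcases hab with ⟨rfl, rfl⟩ | ⟨rfl, rfl⟩ | ⟨rfl, rfl⟩ <;> decide
        have h2 := eo_nonneg 1 (by norm_num) (val a b (Prod.mk (fun x : V × V × G =>
                      if T.Adj x.1 x.2.1 ∧ g x.1 x.2.1 = x.2.2
                      then (1 : ℤ) else 0) (1 : ℤ)) v) (by
            intro w
            simp only [val]
            by_cases hvw : T.Adj v w
            · by_cases ha : g v w = a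
              · have hb : ¬ g v w = b := fun h => hne (ha.symm.trans h)
                simp [ha, hne, hvw]
              · by_cases hb : g v w = b
                · simp [hb, hvw, Ne.symm hne]
                · simp [ha, hb]
            · simp [hvw]) (univ : Finset V).toList
        have h3 := eo_parity 1 (val a b (Prod.mk (fun x : V × V × G =>
                      if T.Adj x.1 x.2.1 ∧ g x.1 x.2.1 = x.2.2
                      then (1 : ℤ) else 0) (1 : ℤ)) v) (univ : Finset V).toList
        rw [Finset.sum_map_toList] at h3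
        change Finset.sum univ (val a b _ v) % 2 = 0 at h1
        dsimp only at h1 h2 h3 ⊢
        omega
    | zero =>
      refine ⟨by simp, by simp, ?_⟩
      intro v hv a b hab
      have h2 := eo_nonneg 0 (le_refl _) (val a b (0 : (V × V × G → ℤ) × ℤ) v) (by
        intro w; simp [val]) (univ : Finset V).toList
      exact h2.2
    | add p q _ _ hp hq =>
      obtain ⟨p1, p2, p3⟩ := hp
      obtain ⟨q1, q2, q3⟩ := hq
      refine ⟨?_, ?_, ?_⟩
      · simp only [Prod.snd_add]; omega
      · intro x
        simp only [Prod.fst_add, Pi.add_apply]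
        exact add_nonneg (p2 x) (q2 x)
      · intro v hv a b hab
        have h1 := p3 v hv a b hab
        have h2 := q3 v hv a b hab
        have h3 := (eo_add p.2 q.2 (val a b p v) (val a b q v) (univ : Finset V).toList).2
        have h4 : (fun w => val a b p v w + val a b q v w) = val a b (p + q) v := by
          funext w
          simp only [val, Prod.fst_add, Pi.add_apply]
          ring
        rw [h4] at h3
        simp only [Prod.snd_add]
        omega
  obtain ⟨n1, n2, n3⟩ := inv2 _ hnz
  have hnn : (0 : ℤ) < n := by exact_mod_cast hn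
  have y1 : 0 ≤ z.2 := by
    have : (n • z).2 = (n : ℤ) * z.2 := by simp
    rw [this] at n1
    exact nonneg_of_mul_nonneg_right n1 hnn
  have y2 : ∀ x, 0 ≤ z.1 x := by
    intro x
    have h1 := n2 x
    have : (n • z).1 x = (n : ℤ) * z.1 x := by simp
    rw [this] at h1
    exact nonneg_of_mul_nonneg_right h1 hnn
  have y3 : ∀ v, (¬ ∃! w : V, T.Adj v w) → ∀ a b : G, (a = (1, 0) ∧ b = (1, 1) ∨
        a = (0, 1) ∧ b = (1, 1) ∨ a = (1, 0) ∧ b = (0, 1)) →
        z.2 ≤ (eo z.2 ((univ : Finset V).toList.map (val a b z v))).2 := by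
    intro v hv a b hab
    have h1 := n3 v hv a b hab
    have e1 : (n • z).2 = (n : ℤ) * z.2 := by simp
    have e2 : val a b (n • z) v = fun w => (n : ℤ) * val a b z v w := by
      funext w
      simp [val]
      ring
    rw [e1, e2, (eo_smul n z.2 hnn.le _ _).2] at h1
    exact le_of_mul_le_mul_left h1 hnn
  clear inv2 n1 n2 n3 hnz hz
  obtain ⟨k, hk⟩ : ∃ k : ℕ, (k : ℤ) = z.2 := ⟨z.2.toNat, Int.toNat_of_nonneg y1⟩
  -- the rows
  have hrows : ∃ rows : V → V → G → ℕ, (∀ v w x, T.Adj v w → (rows v w x : ℤ) = z.1 (v, w, x)) ∧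
      ∀ v w x, ¬ T.Adj v w → rows v w x = if x = 0 then k else 0 := by
    refine ⟨fun v w x => if T.Adj v w then (z.1 (v, w, x)).toNat else if x = 0 then k else 0,
      ?_, ?_⟩
    · intro v w x hvw
      simp only [if_pos hvw]
      exact Int.toNat_of_nonneg (y2 _)
    · intro v w x hvw
      simp only [if_neg hvw]
  obtain ⟨rows, R1, R2⟩ := hrows
  have R3 : ∀ v w, ∑ x, rows v w x = k := by
    intro v w
    by_cases hvw : T.Adj v w
    · have h1 := z3 v w hvw
      rw [← hk, Finset.sum_congr rfl (fun x _ => (R1 v w x hvw).symm)] at h1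
      exact_mod_cast h1
    · rw [Finset.sum_congr rfl (fun x _ => R2 v w x hvw)]
      simp
  have hval : ∀ (a b : G), a ≠ 0 → b ≠ 0 → ∀ v w,
      ((rows v w a : ℤ) + rows v w b) = val a b z v w := by
    intro a b ha hb v w
    by_cases hvw : T.Adj v w
    · rw [R1 v w a hvw, R1 v w b hvw, val]
    · rw [R2 v w a hvw, R2 v w b hvw, val, z2 v w a hvw, z2 v w b hvw, if_neg ha, if_neg hb]
      simp
  -- local arrangements
  have hloc : ∀ v, ∃ μ : V → Fin k → G, (∀ w x, cnt (μ w) x = rows v w x) ∧
      ((¬ ∃! w : V, T.Adj v w) → ∀ j, ∑ w, μ w j = 0) := by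
    intro v
    by_cases hv : ∃! w : V, T.Adj v w
    · have h1 : ∀ w, ∃ f : Fin k → G, ∀ x, cnt f x = rows v w x := fun w =>
        exists_fun k (rows v w) (R3 v w)
      choose μ hμ using h1
      exact ⟨μ, hμ, fun h => absurd hv h⟩
    · have hcd : ∀ a b : G, a ≠ 0 → b ≠ 0 → (a = (1, 0) ∧ b = (1, 1) ∨
          a = (0, 1) ∧ b = (1, 1) ∨ a = (1, 0) ∧ b = (0, 1)) →
          Cd k (eo k ((univ : Finset V).toList.map
            (fun w => ((rows v w a : ℤ) + rows v w b)))).1
            (eo k ((univ : Finset V).toList.map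
            (fun w => ((rows v w a : ℤ) + rows v w b)))).2 0 := by
        intro a b ha hb hab
        have e1 : (fun w => ((rows v w a : ℤ) + rows v w b)) = val a b z v := by
          funext w; exact hval a b ha hb v w
        rw [e1]
        have h1 := y3 v hv a b hab
        have h2 := z4 v hv a b hab
        change Finset.sum univ (val a b z v) % 2 = 0 at h2
        have h3 := eo_parity (k : ℤ) (val a b z v) (univ : Finset V).toList
        rw [Finset.sum_map_toList] at h3
        have hle : ∀ w, val a b z v w ≤ k := by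
          intro w
          rw [← hval a b ha hb v w]
          have h5 := R3 v w
          rw [sumG] at h5
          rcases hab with ⟨rfl, rfl⟩ | ⟨rfl, rfl⟩ | ⟨rfl, rfl⟩ <;> omega
        have h4 := eo_nonneg (k : ℤ) (by positivity) (val a b z v)
          (fun w => ⟨add_nonneg (y2 _) (y2 _), hle w⟩) (univ : Finset V).toList
        rw [← hk] at h1
        refine ⟨h4.1, by omega, by omega⟩
      obtain ⟨μ, hμ1, hμ2⟩ := attain k (rows v) (R3 v) (univ : Finset V).toList
        (Finset.nodup_toList _) (fun x => if x = 0 then k else 0) (by simp)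
        (by simpa [chA] using hcd (1, 0) (1, 1) (by decide) (by decide) (by simp))
        (by simpa [chB] using hcd (0, 1) (1, 1) (by decide) (by decide) (by simp))
        (by simpa [chC] using hcd (1, 0) (0, 1) (by decide) (by decide) (by simp))
      refine ⟨μ, fun w x => hμ1 w (by simp) x, fun _ j => ?_⟩
      have h1 := eq_zero_of_cnt (fun j => ((univ : Finset V).toList.map (fun w => μ w j)).sum)
        (fun x hx => by rw [hμ2 x, if_neg hx]) j
      rw [Finset.sum_map_toList] at h1
      exact h1
  choose μ hμ1 hμ2 using hloc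
  obtain ⟨σ, hσ⟩ := glue T hT μ (by
    intro v w hvw x
    rw [hμ1, hμ1]
    have h1 := R1 v w x hvw
    have h2 := R1 w v x hvw.symm
    rw [z1 v w x, ← h2] at h1
    exact_mod_cast h1)
  have hz' : z = ∑ j : Fin k, (Prod.mk (fun x : V × V × G =>
                      if T.Adj x.1 x.2.1 ∧ (if T.Adj x.1 x.2.1 then
                        μ x.1 x.2.1 (σ x.1 j) else (0 : G)) = x.2.2
                      then (1 : ℤ) else 0) (1 : ℤ)) := by
    refine Prod.ext ?_ ?_
    · funext ⟨v, w, x⟩
      rw [Prod.fst_sum, Finset.sum_apply]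
      dsimp only
      by_cases hvw : T.Adj v w
      · simp only [hvw, true_and, if_true]
        rw [← R1 v w x hvw, ← hμ1 v w x, ← cnt_comp (μ v w) (σ v) x]
        unfold cnt
        rw [Finset.card_filter]
        push_cast
        rfl
      · simp only [hvw, false_and, if_false, Finset.sum_const_zero]
        exact z2 v w x hvw
    · rw [Prod.snd_sum]
      simp [hk]
  rw [hz']
  refine AddSubmonoid.sum_mem _ (fun j _ => AddSubmonoid.subset_closure ?_)
  rw [hS]
  refine ⟨fun v w => if T.Adj v w then μ v w (σ v j) else 0, ?_, ?_, rfl⟩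
  · intro v w
    by_cases hvw : T.Adj v w
    · simp only [hvw, hvw.symm, if_true]
      exact hσ v w hvw j
    · have hwv : ¬ T.Adj w v := fun h => hvw h.symm
      simp only [hvw, hwv, if_false]
  · intro v hv
    refine (Finset.sum_congr rfl (fun w _ => ?_)).trans (hμ2 v hv (σ v j))
    by_cases hvw : T.Adj v w
    · simp only [hvw, if_true]
    · simp only [hvw, if_false]
      symm
      refine eq_zero_of_cnt _ (fun x hx => ?_) _
      rw [hμ1, R2 v w x hvw, if_neg hx]

end Pool.Agent.N107.Kim
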