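import Pool.Agent.N107.Kim.Arith

set_option autoImplicit false
set_option maxHeartbeats 4000000
set_option linter.unusedVariables false

namespace Pool.Agent.N107.Kim

/-- nonnegative integral counts in terms of the three characters -/
def Tet (k A B C : ℤ) : Prop :=
  A ≤ B + C ∧ B ≤ A + C ∧ C ≤ A + B ∧ A + B + C ≤ 2 * k ∧ (A + B + C) % 2 = 0

/-- parity and triangle conditions for a triple of integers -/
structure Inv (k eA oA eB oB eC oC : ℤ) : Prop where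
  a0 : 0 ≤ eA
  a1 : 0 ≤ oA
  b0 : 0 ≤ eB
  b1 : 0 ≤ oB
  c0 : 0 ≤ eC
  c1 : 0 ≤ oC
  sA : k ≤ eA + oA
  sB : k ≤ eB + oB
  sC : k ≤ eC + oC
  pA : (eA - oA - k) % 2 = 0
  pB : (eB - oB - k) % 2 = 0
  pC : (eC - oC - k) % 2 = 0
  p : (eA + eB + eC) % 2 = 0
  t1 : eA ≤ eB + eC
  t2 : eB ≤ eA + eC
  t3 : eC ≤ eA + eB
  t4 : eA ≤ oB + oC
  t5 : eB ≤ oA + oC
  t6 : eC ≤ oA + oB
  t7 : oA ≤ eB + oC
  t8 : oA ≤ oB + eC
  t9 : oB ≤ eA + oC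
  t10 : oB ≤ oA + eC
  t11 : oC ≤ eA + oB
  t12 : oC ≤ oA + eB

theorem Inv.nil (k : ℤ) (hk : 0 ≤ k) : Inv k 0 k 0 k 0 k := by
  constructor <;> omega

theorem Inv.cons {k eA oA eB oB eC oC : ℤ} (h : Inv k eA oA eB oB eC oC)
    {A B C : ℤ} (hT : Tet k A B C) :
    Inv k (min (A + eA) (k - A + oA)) (min (A + oA) (k - A + eA))
      (min (B + eB) (k - B + oB)) (min (B + oB) (k - B + eB))
      (min (C + eC) (k - C + oC)) (min (C + oC) (k - C + eC)) := by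
  obtain ⟨h1, h2, h3, h4, h5⟩ := hT
  obtain ⟨a0, a1, b0, b1, c0, c1, sA, sB, sC, pA, pB, pC, p, t1, t2, t3, t4, t5, t6, t7, t8, t9,
    t10, t11, t12⟩ := h
  constructor <;> omega

theorem exists_p (a b : ℤ) : ∃ p : ℤ, a ≤ p ∧ b ≤ p ∧ -b ≤ p ∧ (p = a ∨ p = b ∨ p = -b) := by
  rcases le_total a b with h | h
  · rcases le_total b (-b) with h' | h'
    · exact ⟨-b, by omega, by omega, by omega, by omega⟩
    · exact ⟨b, by omega, by omega, by omega, by omega⟩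
  · rcases le_total a (-b) with h' | h'
    · exact ⟨-b, by omega, by omega, by omega, by omega⟩
    · exact ⟨a, by omega, by omega, by omega, by omega⟩

theorem exists_q (a b c : ℤ) : ∃ q : ℤ, q ≤ a ∧ q ≤ b ∧ q ≤ c ∧ (q = a ∨ q = b ∨ q = c) := by
  rcases le_total a b with h | h
  · rcases le_total a c with h' | h'
    · exact ⟨a, by omega, by omega, by omega, by omega⟩
    · exact ⟨c, by omega, by omega, by omega, by omega⟩
  · rcases le_total b c with h' | h'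
    · exact ⟨b, by omega, by omega, by omega, by omega⟩
    · exact ⟨c, by omega, by omega, by omega, by omega⟩

/-- The conditions on a target value `w`. -/
def Cd (k e o w : ℤ) : Prop := w ≤ e ∧ k ≤ w + o ∧ (w - e) % 2 = 0

/-- unpacked conditions -/
structure Un (k e o M w : ℤ) : Prop where
  u1 : w ≤ M + e
  u2 : w ≤ k - M + o
  u3 : k ≤ w + M + o
  u4 : M ≤ w + e
  u5 : (w + M + e) % 2 = 0

theorem Un.of {k e o M w : ℤ} (hp : (e - o - k) % 2 = 0)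
    (h : Cd k (min (M + e) (k - M + o)) (min (M + o) (k - M + e)) w) : Un k e o M w := by
  obtain ⟨h1, h2, h3⟩ := h
  constructor <;> omega

theorem key1 {k eA oA eB oB eC oC A B C X Y Z : ℤ}
    (hk : 0 ≤ k)
    (b0 : 0 ≤ eB) (c0 : 0 ≤ eC)
    (sA : k ≤ eA + oA) (t1 : eA ≤ eB + eC) (t2 : oB ≤ oA + eC) (t3 : oC ≤ oA + eB)
    (h1 : A ≤ B + C) (h2 : B ≤ A + C) (h3 : C ≤ A + B) (h4 : A + B + C ≤ 2 * k)
    (g1 : X ≤ Y + Z) (g2 : Y ≤ X + Z) (g3 : Z ≤ X + Y) (g4 : X + Y + Z ≤ 2 * k)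
    (a1 : X ≤ A + eA) (a2 : X ≤ k - A + oA) (a3 : k ≤ X + A + oA) (a4 : A ≤ X + eA)
    (b1 : Y ≤ B + eB) (b2 : Y ≤ k - B + oB) (b3 : k ≤ Y + B + oB) (b4 : B ≤ Y + eB)
    (c1 : Z ≤ C + eC) (c2 : Z ≤ k - C + oC) (c3 : k ≤ Z + C + oC) (c4 : C ≤ Z + eC)
    {p q q' : ℤ} (hp : p = k - oA ∨ p = A - X ∨ p = -(A - X))
    (hq : q = eB ∨ q = B + Y ∨ q = 2 * k - B - Y)
    (hq' : q' = eC ∨ q' = C + Z ∨ q' = 2 * k - C - Z) : p ≤ q + q' := by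
  rcases hp with rfl | rfl | rfl <;> rcases hq with rfl | rfl | rfl <;>
    rcases hq' with rfl | rfl | rfl <;> linarith

theorem key4 {k eA oA eB oB eC oC A B C X Y Z : ℤ}
    (hk : 0 ≤ k)
    (oa : 0 ≤ oA) (ob : 0 ≤ oB) (oc : 0 ≤ oC)
    (sA : k ≤ eA + oA) (t1 : eA ≤ oB + oC) (t2 : eB ≤ oA + oC) (t3 : eC ≤ oA + oB)
    (h1 : A ≤ B + C) (h2 : B ≤ A + C) (h3 : C ≤ A + B) (h4 : A + B + C ≤ 2 * k)
    (g1 : X ≤ Y + Z) (g2 : Y ≤ X + Z) (g3 : Z ≤ X + Y) (g4 : X + Y + Z ≤ 2 * k)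
    (a1 : X ≤ A + eA) (a2 : X ≤ k - A + oA) (a3 : k ≤ X + A + oA) (a4 : A ≤ X + eA)
    (b1 : Y ≤ B + eB) (b2 : Y ≤ k - B + oB) (b3 : k ≤ Y + B + oB) (b4 : B ≤ Y + eB)
    (c1 : Z ≤ C + eC) (c2 : Z ≤ k - C + oC) (c3 : k ≤ Z + C + oC) (c4 : C ≤ Z + eC)
    {p q q' : ℤ} (hp : p = k - oA ∨ p = A - X ∨ p = -(A - X))
    (hq : q = k - oB ∨ q = B - Y ∨ q = -(B - Y))
    (hq' : q' = k - oC ∨ q' = C - Z ∨ q' = -(C - Z)) : p + q + q' ≤ 2 * k := by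
  rcases hp with rfl | rfl | rfl <;> rcases hq with rfl | rfl | rfl <;>
    rcases hq' with rfl | rfl | rfl <;> linarith

theorem key0 {k e o M w : ℤ} (hk : k ≤ e + o) (h0 : 0 ≤ M) (h1 : M ≤ k) (h2 : 0 ≤ w)
    (h3 : w ≤ k) (hu : Un k e o M w) (hpar : (e - o - k) % 2 = 0)
    {p q : ℤ} (hp : p = k - o ∨ p = M - w ∨ p = -(M - w))
    (hq : q = e ∨ q = M + w ∨ q = 2 * k - M - w) : p ≤ q ∧ (q - p) % 2 = 0 ∧
      (p - e) % 2 = 0 := by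
  obtain ⟨u1, u2, u3, u4, u5⟩ := hu
  rcases hp with rfl | rfl | rfl <;> rcases hq with rfl | rfl | rfl <;>
    refine ⟨by linarith, by omega, by omega⟩

theorem step {k eA oA eB oB eC oC : ℤ} (h : Inv k eA oA eB oB eC oC)
    {A B C : ℤ} (hT : Tet k A B C) {X Y Z : ℤ} (hX : Tet k X Y Z)
    (hA : Cd k (min (A + eA) (k - A + oA)) (min (A + oA) (k - A + eA)) X)
    (hB : Cd k (min (B + eB) (k - B + oB)) (min (B + oB) (k - B + eB)) Y)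
    (hC : Cd k (min (C + eC) (k - C + oC)) (min (C + oC) (k - C + eC)) Z) :
    ∃ a b c : ℤ, Tet k a b c ∧ Cd k eA oA a ∧ Cd k eB oB b ∧ Cd k eC oC c ∧
      Tet k a A X ∧ Tet k b B Y ∧ Tet k c C Z := by
  obtain ⟨h1, h2, h3, h4, h5⟩ := hT
  obtain ⟨g1, g2, g3, g4, g5⟩ := hX
  have uA := Un.of h.pA hA
  have uB := Un.of h.pB hB
  have uC := Un.of h.pC hC
  have hk : 0 ≤ k := by linarith
  obtain ⟨p1, p11, p12, p13, p14⟩ := exists_p (k - oA) (A - X)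
  obtain ⟨p2, p21, p22, p23, p24⟩ := exists_p (k - oB) (B - Y)
  obtain ⟨p3, p31, p32, p33, p34⟩ := exists_p (k - oC) (C - Z)
  obtain ⟨q1, q11, q12, q13, q14⟩ := exists_q eA (A + X) (2 * k - A - X)
  obtain ⟨q2, q21, q22, q23, q24⟩ := exists_q eB (B + Y) (2 * k - B - Y)
  obtain ⟨q3, q31, q32, q33, q34⟩ := exists_q eC (C + Z) (2 * k - C - Z)
  obtain ⟨a5, a6, a7⟩ := key0 h.sA (by linarith) (by linarith) (by linarith) (by linarith) uA h.pA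
    p14 q14
  obtain ⟨b5, b6, b7⟩ := key0 h.sB (by linarith) (by linarith) (by linarith) (by linarith) uB h.pB
    p24 q24
  obtain ⟨c5, c6, c7⟩ := key0 h.sC (by linarith) (by linarith) (by linarith) (by linarith) uC h.pC
    p34 q34
  have k1 := key1 hk h.b0 h.c0 h.sA h.t1 h.t10 h.t12 h1 h2 h3 h4 g1 g2 g3 g4
    uA.u1 uA.u2 uA.u3 uA.u4 uB.u1 uB.u2 uB.u3 uB.u4 uC.u1 uC.u2 uC.u3 uC.u4 p14 q24 q34
  have k2 := key1 hk h.a0 h.c0 h.sB h.t2 h.t8 (by linarith [h.t11]) h2 h1 (by linarith) (by linarith)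
    g2 g1 (by linarith) (by linarith)
    uB.u1 uB.u2 uB.u3 uB.u4 uA.u1 uA.u2 uA.u3 uA.u4 uC.u1 uC.u2 uC.u3 uC.u4 p24 q14 q34
  have k3 := key1 hk h.a0 h.b0 h.sC h.t3 (by linarith [h.t7]) (by linarith [h.t9]) h3 (by linarith) (by linarith) (by linarith)
    g3 (by linarith) (by linarith) (by linarith)
    uC.u1 uC.u2 uC.u3 uC.u4 uA.u1 uA.u2 uA.u3 uA.u4 uB.u1 uB.u2 uB.u3 uB.u4 p34 q14 q24
  have k4 := key4 hk h.a1 h.b1 h.c1 h.sA h.t4 h.t5 h.t6 h1 h2 h3 h4 g1 g2 g3 g4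
    uA.u1 uA.u2 uA.u3 uA.u4 uB.u1 uB.u2 uB.u3 uB.u4 uC.u1 uC.u2 uC.u3 uC.u4 p14 p24 p34
  have hpar := h.p
  obtain ⟨a, b, c, ⟨r1, r2, r3, r4, r5, r6⟩, ⟨r7, r8, r9⟩, r10, r11, r12, r13⟩ :=
    box k p1 q1 p2 q2 p3 q3 a5 b5 c5
      (by linarith) (by linarith) (by linarith) (by linarith) (by linarith) (by linarith)
      a6 b6 c6 (by clear * - a7 b7 c7 hpar; omega) k1 k2 k3 k4
  have w1 : (a - eA) % 2 = 0 := by clear * - r7 a7; omega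
  have w2 : (b - eB) % 2 = 0 := by clear * - r8 b7; omega
  have w3 : (c - eC) % 2 = 0 := by clear * - r9 c7; omega
  have v1 := uA.u5
  have v2 := uB.u5
  have v3 := uC.u5
  refine ⟨a, b, c, ⟨r10, r11, r12, r13, by clear * - w1 w2 w3 hpar; omega⟩,
    ⟨by linarith, by linarith, w1⟩,
    ⟨by linarith, by linarith, w2⟩, ⟨by linarith, by linarith, w3⟩,
    ⟨by linarith, by linarith, by linarith, by linarith, by clear * - w1 v1; omega⟩,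
    ⟨by linarith, by linarith, by linarith, by linarith, by clear * - w2 v2; omega⟩,
    ⟨by linarith, by linarith, by linarith, by linarith, by clear * - w3 v3; omega⟩⟩

end Pool.Agent.N107.Kim
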